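import Mathlib

/-!
# Exact exponential growth rate of `ℕ`-weighted tree automata (MP_7772c6_lc, Q1)

Q1 is answered affirmatively: for every finite ranked alphabet and every `ℕ`-weighted tree
automaton `𝒜`, the sequence `growth[𝒜](n) ^ (1 / n)` converges to a real `ρ`, and `𝒜` has
exponential growth exactly when `ρ > 1`.

Idea of the proof.  Fix `l > 1`.  For a state `q` let `val t q` be the sum of the weights of the
runs on `t` with root state `q`.  Call `q` big if `val t q ≥ c * l ^ n` is attained on trees of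
size `≤ n` for all large `n`, and small if `val t q ≤ K * l' ^ |t|` for all `t`, for every
`l' > l`.  Every state is big or small: induct along the order `p below q` (some context has
positive weight with `p` at the hole and `q` at the root).  If `q` is not big, then the weight of
a context whose hole and root states are both equivalent to `q` is at most `l ^ (size + d)` (else
pumping the context makes `q` big), the states strictly below `q` are small, and decomposing a
tree at the nodes whose state is equivalent to `q` but whose children are not gives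
`val t q ≤ K * |t| * m ^ |t|` for each `m > l`.
-/

open Filter Topology Finset

namespace Pool.Agent.Results.MP_7772c6_lc.ExactRate

universe u v

/-- Finite trees over the ranked alphabet `A`: a node labelled `a` has exactly `rank a` ordered
children. -/
inductive RTree {A : Type u} (rank : A → ℕ) : Type u
  | node (a : A) (ch : Fin (rank a) → RTree rank) : RTree rank

namespace RTree

variable {A : Type u} {rank : A → ℕ}

/-- The size of a tree: its number of nodes. -/
def size : RTree rank → ℕ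
  | node a ch => 1 + ∑ i : Fin (rank a), size (ch i)

/-- A run on a tree, with states in `Q`: a state for every node. -/
def Run (Q : Type v) : RTree rank → Type v
  | node a ch => Q × (∀ i : Fin (rank a), Run Q (ch i))

/-- The state which a run assigns to the root. -/
def Run.root {Q : Type v} : {t : RTree rank} → Run Q t → Q
  | node _ _, r => r.1

noncomputable instance Run.instFintype {Q : Type v} [Fintype Q] : (t : RTree rank) → Fintype (Run Q t)
  | node a ch =>
    letI : ∀ i, Fintype (Run Q (ch i)) := fun i => Run.instFintype (ch i)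
    inferInstanceAs (Fintype (Q × (∀ i : Fin (rank a), Run Q (ch i))))

end RTree

/-- An `ℕ`-weighted bottom-up tree automaton over the ranked alphabet `(A, rank)` with states `Q`:
transition weights `μ a (q₁,…,q_k) q` and final weights. -/
structure WTA {A : Type u} (rank : A → ℕ) (Q : Type v) where
  /-- transition weights -/
  μ : (a : A) → (Fin (rank a) → Q) → Q → ℕ
  /-- final weights -/
  final : Q → ℕ

namespace WTA

variable {A : Type u} {rank : A → ℕ} {Q : Type v}

/-- The product, over all nodes, of the transition weight `μ a (q₁,…,q_k) q`, where `a` is the label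
of the node, `q` its state and `q₁,…,q_k` the states of its children. -/
def runProd (𝒜 : WTA rank Q) : (t : RTree rank) → RTree.Run Q t → ℕ
  | RTree.node a ch, r =>
      𝒜.μ a (fun i => (r.2 i).root) r.1 * ∏ i : Fin (rank a), 𝒜.runProd (ch i) (r.2 i)

/-- The value `𝒜(t)`: the sum over all runs of the weight of the run, which is the product of the
transition weights over all nodes times the final weight of the root state. -/
noncomputable def value [Fintype Q] (𝒜 : WTA rank Q) (t : RTree rank) : ℕ :=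
  ∑ r : RTree.Run Q t, 𝒜.runProd t r * 𝒜.final r.root

end WTA

/-- `growth f n = max {f t : |t| ≤ n}` (the supremum in `ℕ` of this set; for the value function of
an automaton over a finite alphabet the set is bounded, so this is its maximum as soon as some tree
has size at most `n`, see `growth_isGreatest`). -/
noncomputable def growth {A : Type u} {rank : A → ℕ} (f : RTree rank → ℕ) (n : ℕ) : ℕ :=
  sSup {v : ℕ | ∃ t : RTree rank, t.size ≤ n ∧ v = f t}

/-- Exponential growth, `g(n) = 2^{Θ(n)}`: there are `c₁, c₂ > 0` with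
`2 ^ (c₁ n) ≤ g n ≤ 2 ^ (c₂ n)` for all large `n`. -/
def ExpGrowth (g : ℕ → ℕ) : Prop :=
  ∃ c₁ c₂ : ℝ, 0 < c₁ ∧ 0 < c₂ ∧
    ∀ᶠ n : ℕ in atTop, (2 : ℝ) ^ (c₁ * n) ≤ g n ∧ (g n : ℝ) ≤ (2 : ℝ) ^ (c₂ * n)

section Proof

variable {A : Type u} {rank : A → ℕ} {Q : Type v} [Fintype Q]

/-- sum of the weights of the runs with root state `q` -/
def val (𝒜 : WTA rank Q) : RTree rank → Q → ℕ
  | RTree.node a ch => fun q => ∑ ps : Fin (rank a) → Q, 𝒜.μ a ps q * ∏ i, val 𝒜 (ch i) (ps i)

theorem val_eq (𝒜 : WTA rank Q) [DecidableEq Q] (t : RTree rank) : ∀ (q : Q),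
    (∑ r : RTree.Run Q t, if r.root = q then 𝒜.runProd t r else 0) = val 𝒜 t q := by
  induction t with
  | node a ch ih =>
    intro q
    let _inst : ∀ i, Fintype (RTree.Run Q (ch i)) := fun i => RTree.Run.instFintype (ch i)
    have h1 : (∑ r : RTree.Run Q (RTree.node a ch),
        if r.root = q then 𝒜.runProd (RTree.node a ch) r else 0)
        = ∑ r : Q × (∀ i : Fin (rank a), RTree.Run Q (ch i)),
          if r.1 = q then 𝒜.μ a (fun i => (r.2 i).root) r.1 *
            ∏ i : Fin (rank a), 𝒜.runProd (ch i) (r.2 i) else 0 := rfl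
    rw [h1, Fintype.sum_prod_type]
    simp only
    rw [Finset.sum_comm]
    simp only [Finset.sum_ite_eq', Finset.mem_univ, if_true]
    show _ = ∑ ps : Fin (rank a) → Q, 𝒜.μ a ps q * ∏ i, val 𝒜 (ch i) (ps i)
    have h2 : ∀ ps : Fin (rank a) → Q, (∏ i, val 𝒜 (ch i) (ps i))
        = ∑ rs : (∀ i : Fin (rank a), RTree.Run Q (ch i)),
          if (fun i => (rs i).root) = ps then ∏ i, 𝒜.runProd (ch i) (rs i) else 0 := by
      intro ps
      have h3 : (∏ i, val 𝒜 (ch i) (ps i))
          = ∏ i, ∑ r : RTree.Run Q (ch i), if r.root = ps i then 𝒜.runProd (ch i) r else 0 :=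
        Finset.prod_congr rfl (fun i _ => (ih i (ps i)).symm)
      rw [h3, Finset.prod_univ_sum]
      rw [Fintype.piFinset_univ]
      refine Finset.sum_congr rfl (fun rs _ => ?_)
      by_cases h : (fun i => (rs i).root) = ps
      · rw [if_pos h]
        refine Finset.prod_congr rfl (fun i _ => ?_)
        rw [if_pos (congrFun h i)]
      · rw [if_neg h]
        obtain ⟨i, hi⟩ := Function.ne_iff.mp h
        exact Finset.prod_eq_zero (Finset.mem_univ i) (if_neg hi)
    simp only [h2]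
    simp only [Finset.mul_sum]
    rw [Finset.sum_comm]
    refine Finset.sum_congr rfl (fun rs _ => ?_)
    simp

theorem value_eq (𝒜 : WTA rank Q) (t : RTree rank) :
    𝒜.value t = ∑ q, val 𝒜 t q * 𝒜.final q := by
  classical
  unfold WTA.value
  have : ∀ r : RTree.Run Q t, 𝒜.runProd t r * 𝒜.final r.root
      = ∑ q, (if r.root = q then 𝒜.runProd t r else 0) * 𝒜.final q := by
    intro r
    simp
  rw [Finset.sum_congr rfl (fun r _ => this r), Finset.sum_comm]
  refine Finset.sum_congr rfl (fun q _ => ?_)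
  rw [← val_eq, Finset.sum_mul]


/-! ### Contexts -/

/-- A tree with one level and a hole in place of the child `i` (the subtree `ch i` is ignored). -/
structure Frame (rank : A → ℕ) where
  /-- label of the root -/
  a : A
  /-- place of the hole -/
  i : Fin (rank a)
  /-- the other subtrees -/
  ch : Fin (rank a) → RTree rank

/-- fill the hole -/
def Frame.plug (f : Frame rank) (t : RTree rank) : RTree rank :=
  RTree.node f.a (Function.update f.ch f.i t)

/-- number of nodes outside the hole -/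
def Frame.size (f : Frame rank) : ℕ := 1 + ∑ j ∈ univ.erase f.i, (f.ch j).size

theorem Frame.size_plug (f : Frame rank) (t : RTree rank) :
    (f.plug t).size = t.size + f.size := by
  show 1 + ∑ j, (Function.update f.ch f.i t j).size = _
  rw [← Finset.add_sum_erase _ _ (Finset.mem_univ f.i)]
  rw [Function.update_self]
  have : ∑ x ∈ univ.erase f.i, (Function.update f.ch f.i t x).size
      = ∑ j ∈ univ.erase f.i, (f.ch j).size := by
    refine Finset.sum_congr rfl (fun j hj => ?_)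
    rw [Function.update_of_ne (Finset.ne_of_mem_erase hj)]
  rw [this]
  unfold Frame.size
  ring

theorem size_node_frame (a : A) (ch : Fin (rank a) → RTree rank) (i : Fin (rank a)) :
    (RTree.node a ch).size = (ch i).size + (Frame.mk a i ch).size := by
  rw [← Frame.size_plug]
  show _ = (RTree.node a (Function.update ch i (ch i))).size
  rw [Function.update_eq_self]

variable [DecidableEq Q]

/-- weight of the frame with state `p` at the hole and `q` at the root -/
def Frame.mat (𝒜 : WTA rank Q) (f : Frame rank) (p q : Q) : ℕ :=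
  ∑ ps : Fin (rank f.a) → Q, if ps f.i = p then
    𝒜.μ f.a ps q * ∏ j ∈ univ.erase f.i, val 𝒜 (f.ch j) (ps j) else 0

theorem val_node_frame (𝒜 : WTA rank Q) (a : A) (ch : Fin (rank a) → RTree rank)
    (i : Fin (rank a)) (q : Q) :
    val 𝒜 (RTree.node a ch) q = ∑ p, val 𝒜 (ch i) p * (Frame.mk a i ch).mat 𝒜 p q := by
  unfold Frame.mat
  simp only [Finset.mul_sum]
  rw [Finset.sum_comm]
  show ∑ ps : Fin (rank a) → Q, 𝒜.μ a ps q * ∏ i, val 𝒜 (ch i) (ps i) = _
  refine Finset.sum_congr rfl (fun ps _ => ?_)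
  simp only [mul_ite, mul_zero, Finset.sum_ite_eq, Finset.mem_univ, if_true]
  rw [← Finset.mul_prod_erase _ _ (Finset.mem_univ i)]
  ring

theorem Frame.val_plug (𝒜 : WTA rank Q) (f : Frame rank) (t : RTree rank) (q : Q) :
    val 𝒜 (f.plug t) q = ∑ p, val 𝒜 t p * f.mat 𝒜 p q := by
  unfold Frame.plug
  rw [val_node_frame 𝒜 f.a _ f.i q]
  refine Finset.sum_congr rfl (fun p _ => ?_)
  rw [Function.update_self]
  congr 1
  unfold Frame.mat
  refine Finset.sum_congr rfl (fun ps _ => ?_)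
  show (if ps f.i = p then _ else 0) = _
  split_ifs with h
  · congr 1
    refine Finset.prod_congr rfl (fun j hj => ?_)
    show val 𝒜 (Function.update f.ch f.i t j) (ps j) = _
    rw [Function.update_of_ne (Finset.ne_of_mem_erase hj)]
  · rfl

/-- contexts: the head of the list is the frame next to the hole -/
abbrev Ctx (rank : A → ℕ) := List (Frame rank)

/-- size of a context -/
def csize (c : Ctx rank) : ℕ := (c.map Frame.size).sum

/-- fill the hole of a context -/
def cplug : Ctx rank → RTree rank → RTree rank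
  | [], t => t
  | f :: c, t => cplug c (f.plug t)

/-- weight of a context with given states at the hole and the root -/
def cmat (𝒜 : WTA rank Q) : Ctx rank → Q → Q → ℕ
  | [], p, q => if p = q then 1 else 0
  | f :: c, p, q => ∑ r, f.mat 𝒜 p r * cmat 𝒜 c r q

theorem csize_append (c d : Ctx rank) : csize (c ++ d) = csize c + csize d := by
  simp [csize]

theorem csize_cons (f : Frame rank) (c : Ctx rank) : csize (f :: c) = f.size + csize c := by
  simp [csize]

theorem cmat_append (𝒜 : WTA rank Q) (c d : Ctx rank) (p q : Q) :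
    cmat 𝒜 (c ++ d) p q = ∑ r, cmat 𝒜 c p r * cmat 𝒜 d r q := by
  induction c generalizing p with
  | nil => simp [cmat]
  | cons f c ih =>
    show ∑ r, f.mat 𝒜 p r * cmat 𝒜 (c ++ d) r q = ∑ r, (∑ s, f.mat 𝒜 p s * cmat 𝒜 c s r) * _
    simp only [ih, Finset.mul_sum, Finset.sum_mul]
    rw [Finset.sum_comm]
    simp only [mul_assoc]

theorem size_cplug (c : Ctx rank) (t : RTree rank) : (cplug c t).size = t.size + csize c := by
  induction c generalizing t with
  | nil => simp [cplug, csize]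
  | cons f c ih =>
    show (cplug c (f.plug t)).size = _
    rw [ih, Frame.size_plug, csize_cons]
    ring

theorem val_cplug (𝒜 : WTA rank Q) (c : Ctx rank) (t : RTree rank) (q : Q) :
    val 𝒜 (cplug c t) q = ∑ p, val 𝒜 t p * cmat 𝒜 c p q := by
  induction c generalizing t with
  | nil => simp [cplug, cmat]
  | cons f c ih =>
    show val 𝒜 (cplug c (f.plug t)) q = ∑ p, val 𝒜 t p * ∑ r, f.mat 𝒜 p r * cmat 𝒜 c r q
    rw [ih]
    simp only [Frame.val_plug, Finset.mul_sum, Finset.sum_mul]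
    rw [Finset.sum_comm]
    simp only [mul_assoc]

theorem le_val_cplug (𝒜 : WTA rank Q) (c : Ctx rank) (t : RTree rank) (p q : Q) :
    val 𝒜 t p * cmat 𝒜 c p q ≤ val 𝒜 (cplug c t) q := by
  rw [val_cplug]
  exact Finset.single_le_sum (f := fun p => val 𝒜 t p * cmat 𝒜 c p q)
    (fun _ _ => Nat.zero_le _) (Finset.mem_univ p)

theorem le_cmat_append (𝒜 : WTA rank Q) (c d : Ctx rank) (p r q : Q) :
    cmat 𝒜 c p r * cmat 𝒜 d r q ≤ cmat 𝒜 (c ++ d) p q := by
  rw [cmat_append]
  exact Finset.single_le_sum (f := fun r => cmat 𝒜 c p r * cmat 𝒜 d r q)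
    (fun _ _ => Nat.zero_le _) (Finset.mem_univ r)

/-- `p` can occur below `q` -/
def Below (𝒜 : WTA rank Q) (p q : Q) : Prop := ∃ c : Ctx rank, 0 < cmat 𝒜 c p q

theorem Below.refl (𝒜 : WTA rank Q) (p : Q) : Below 𝒜 p p := ⟨[], by simp [cmat]⟩

theorem Below.trans {𝒜 : WTA rank Q} {p q r : Q} (h1 : Below 𝒜 p q) (h2 : Below 𝒜 q r) :
    Below 𝒜 p r := by
  obtain ⟨c, hc⟩ := h1
  obtain ⟨d, hd⟩ := h2
  exact ⟨c ++ d, lt_of_lt_of_le (Nat.mul_pos hc hd) (le_cmat_append 𝒜 c d p q r)⟩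

/-- eventually at least of the order `l ^ n` -/
def Big (𝒜 : WTA rank Q) (l : ℝ) (q : Q) : Prop :=
  ∃ c : ℝ, 0 < c ∧ ∃ N : ℕ, ∀ n ≥ N, ∃ t : RTree rank, t.size ≤ n ∧ c * l ^ n ≤ val 𝒜 t q

/-- rate at most `l` -/
def Small (𝒜 : WTA rank Q) (l : ℝ) (q : Q) : Prop :=
  ∀ l' > l, ∃ K : ℝ, ∀ t : RTree rank, (val 𝒜 t q : ℝ) ≤ K * l' ^ t.size

theorem Big.mono {𝒜 : WTA rank Q} {l : ℝ} (hl : 1 < l) {p q : Q} (h : Below 𝒜 p q)
    (hp : Big 𝒜 l p) : Big 𝒜 l q := by
  obtain ⟨e, he⟩ := h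
  obtain ⟨c, hc, N, hN⟩ := hp
  have hl0 : (0 : ℝ) < l := by linarith
  refine ⟨c / l ^ csize e, by positivity, N + csize e, fun n hn => ?_⟩
  obtain ⟨t, ht1, ht2⟩ := hN (n - csize e) (by omega)
  refine ⟨cplug e t, ?_, ?_⟩
  · rw [size_cplug]
    omega
  · have h1 : (val 𝒜 t p : ℝ) ≤ val 𝒜 (cplug e t) q := by
      have : val 𝒜 t p ≤ val 𝒜 (cplug e t) q :=
        le_trans (Nat.le_mul_of_pos_right _ he) (le_val_cplug 𝒜 e t p q)
      exact_mod_cast this
    refine le_trans ?_ h1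
    refine le_trans (le_of_eq ?_) ht2
    have h2 : l ^ n = l ^ (n - csize e) * l ^ csize e := by
      rw [← pow_add]
      congr 1
      omega
    rw [h2]
    field_simp

theorem big_of_iter {𝒜 : WTA rank Q} {l : ℝ} (hl : 1 < l) {q : Q} {s D : ℕ} (hs : 1 ≤ s)
    (h : ∀ k : ℕ, ∃ t : RTree rank, t.size ≤ D + k * s ∧ l ^ (k * s) ≤ (val 𝒜 t q : ℝ)) :
    Big 𝒜 l q := by
  have hl0 : (0 : ℝ) < l := by linarith
  refine ⟨1 / l ^ (D + s), by positivity, D, fun n hn => ?_⟩
  obtain ⟨t, ht1, ht2⟩ := h ((n - D) / s)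
  have h1 : (n - D) / s * s ≤ n - D := Nat.div_mul_le_self _ _
  have h2 : n - D < (n - D) / s * s + s := by
    have := Nat.lt_div_mul_add (a := n - D) (b := s) (by omega)
    exact this
  refine ⟨t, by omega, le_trans ?_ ht2⟩
  rw [div_mul_eq_mul_div, one_mul, div_le_iff₀ (by positivity), ← pow_add]
  exact pow_le_pow_right₀ hl.le (by omega)

/-- powers of a context -/
def cpow (c : Ctx rank) : ℕ → Ctx rank
  | 0 => []
  | k + 1 => cpow c k ++ c

theorem csize_cpow (c : Ctx rank) (k : ℕ) : csize (cpow c k) = k * csize c := by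
  induction k with
  | zero => simp [cpow, csize]
  | succ k ih =>
    show csize (cpow c k ++ c) = _
    rw [csize_append, ih]
    ring

theorem cmat_cpow (𝒜 : WTA rank Q) (c : Ctx rank) (p : Q) (k : ℕ) :
    cmat 𝒜 c p p ^ k ≤ cmat 𝒜 (cpow c k) p p := by
  induction k with
  | zero => simp [cpow, cmat]
  | succ k ih =>
    show _ ≤ cmat 𝒜 (cpow c k ++ c) p p
    refine le_trans ?_ (le_cmat_append 𝒜 _ _ p p p)
    rw [pow_succ]
    exact Nat.mul_le_mul_right _ ih

theorem big_of_loop {𝒜 : WTA rank Q} {l : ℝ} (hl : 1 < l) {p : Q} {c : Ctx rank} {s : ℕ}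
    (hs : 1 ≤ s) (hc : csize c ≤ s) (h : l ^ s ≤ (cmat 𝒜 c p p : ℝ))
    {t₀ : RTree rank} (ht₀ : 0 < val 𝒜 t₀ p) : Big 𝒜 l p := by
  refine big_of_iter hl (s := s) (D := t₀.size) hs (fun k => ⟨cplug (cpow c k) t₀, ?_, ?_⟩)
  · rw [size_cplug, csize_cpow]
    have := Nat.mul_le_mul_left k hc
    omega
  · have h1 : cmat 𝒜 c p p ^ k ≤ val 𝒜 (cplug (cpow c k) t₀) p := by
      refine le_trans (cmat_cpow 𝒜 c p k) (le_trans ?_ (le_val_cplug 𝒜 _ t₀ p p))
      exact Nat.le_mul_of_pos_left _ ht₀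
    have h2 : ((cmat 𝒜 c p p : ℝ)) ^ k ≤ val 𝒜 (cplug (cpow c k) t₀) p := by
      exact_mod_cast h1
    refine le_trans ?_ h2
    rw [mul_comm, pow_mul]
    exact pow_le_pow_left₀ (by positivity) h k


theorem sum_ite_frame (𝒜 : WTA rank Q) (a : A) (ch : Fin (rank a) → RTree rank)
    (i : Fin (rank a)) (p q : Q) :
    (∑ ps : Fin (rank a) → Q,
      if ps i = p then 𝒜.μ a ps q * ∏ j, val 𝒜 (ch j) (ps j) else 0)
      = val 𝒜 (ch i) p * (Frame.mk a i ch).mat 𝒜 p q := by
  unfold Frame.mat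
  rw [Finset.mul_sum]
  refine Finset.sum_congr rfl (fun ps _ => ?_)
  show _ = val 𝒜 (ch i) p * (if ps i = p then _ else 0)
  split_ifs with h
  · rw [← Finset.mul_prod_erase _ _ (Finset.mem_univ i), h]
    ring
  · simp

theorem val_split (𝒜 : WTA rank Q) (a : A) (ch : Fin (rank a) → RTree rank) (q : Q)
    (S : Finset Q) :
    val 𝒜 (RTree.node a ch) q ≤
      (∑ ps ∈ univ.filter (fun ps : Fin (rank a) → Q => ∀ i, ps i ∉ S),
        𝒜.μ a ps q * ∏ j, val 𝒜 (ch j) (ps j))
      + ∑ i, ∑ p ∈ S, val 𝒜 (ch i) p * (Frame.mk a i ch).mat 𝒜 p q := by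
  have h0 : val 𝒜 (RTree.node a ch) q
      = ∑ ps : Fin (rank a) → Q, 𝒜.μ a ps q * ∏ j, val 𝒜 (ch j) (ps j) := rfl
  rw [h0, ← Finset.sum_filter_add_sum_filter_not univ
    (fun ps : Fin (rank a) → Q => ∀ i, ps i ∉ S)]
  refine Nat.add_le_add_left ?_ _
  have h1 : ∀ i, ∑ p ∈ S, val 𝒜 (ch i) p * (Frame.mk a i ch).mat 𝒜 p q
      = ∑ ps : Fin (rank a) → Q,
        if ps i ∈ S then 𝒜.μ a ps q * ∏ j, val 𝒜 (ch j) (ps j) else 0 := by
    intro i
    simp only [← sum_ite_frame]
    rw [Finset.sum_comm]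
    refine Finset.sum_congr rfl (fun ps _ => ?_)
    rw [Finset.sum_ite_eq]
  simp only [h1]
  rw [Finset.sum_comm, Finset.sum_filter]
  refine Finset.sum_le_sum (fun ps _ => ?_)
  by_cases h : ∀ i, ps i ∉ S
  · rw [if_neg (not_not.2 h)]
    exact Nat.zero_le _
  · rw [if_pos h]
    push Not at h
    obtain ⟨i, hi⟩ := h
    refine le_trans ?_ (Finset.single_le_sum
      (f := fun i => if ps i ∈ S then 𝒜.μ a ps q * ∏ j, val 𝒜 (ch j) (ps j) else 0)
      (fun _ _ => Nat.zero_le _) (Finset.mem_univ i))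
    simp [hi]

theorem below_of_term (𝒜 : WTA rank Q) (a : A) (ch : Fin (rank a) → RTree rank) (q : Q)
    (ps : Fin (rank a) → Q) (h : 𝒜.μ a ps q * ∏ j, val 𝒜 (ch j) (ps j) ≠ 0)
    (i : Fin (rank a)) : Below 𝒜 (ps i) q := by
  refine ⟨[Frame.mk a i ch], ?_⟩
  have h1 : 0 < (Frame.mk a i ch).mat 𝒜 (ps i) q := by
    have h2 : val 𝒜 (ch i) (ps i) * (Frame.mk a i ch).mat 𝒜 (ps i) q ≠ 0 := by
      rw [← sum_ite_frame]
      intro h3
      rw [Finset.sum_eq_zero_iff] at h3
      have := h3 ps (Finset.mem_univ _)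
      rw [if_pos rfl] at this
      exact h this
    exact Nat.pos_of_ne_zero (right_ne_zero_of_mul h2)
  show 0 < ∑ r, (Frame.mk a i ch).mat 𝒜 (ps i) r * cmat 𝒜 [] r q
  simp only [cmat, mul_ite, mul_one, mul_zero, Finset.sum_ite_eq', Finset.mem_univ, if_true]
  exact h1

theorem dichotomy [Fintype A] (𝒜 : WTA rank Q) {l : ℝ} (hl : 1 < l) :
    ∀ q : Q, Big 𝒜 l q ∨ Small 𝒜 l q := by
  have wf : WellFounded (fun p q : Q => Below 𝒜 p q ∧ ¬ Below 𝒜 q p) := by
    have : IsTrans Q (fun p q : Q => Below 𝒜 p q ∧ ¬ Below 𝒜 q p) :=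
      ⟨fun a b c h1 h2 => ⟨h1.1.trans h2.1, fun h => h2.2 (h.trans h1.1)⟩⟩
    have : Std.Irrefl (fun p q : Q => Below 𝒜 p q ∧ ¬ Below 𝒜 q p) :=
      ⟨fun a h => h.2 h.1⟩
    exact Finite.wellFounded_of_trans_of_irrefl _
  refine fun q => wf.induction (C := fun q => Big 𝒜 l q ∨ Small 𝒜 l q) q (fun q ih => ?_)
  have hl0 : (0 : ℝ) < l := by linarith
  by_cases hbig : Big 𝒜 l q
  · exact Or.inl hbig
  right
  by_cases hprod : ∃ t, 0 < val 𝒜 t q
  swap
  · intro l' hl'
    refine ⟨0, fun t => ?_⟩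
    push Not at hprod
    have : val 𝒜 t q = 0 := Nat.le_zero.mp (hprod t)
    simp [this]
  obtain ⟨t₀, ht₀⟩ := hprod
  classical
  set cls : Finset Q := univ.filter (fun p => Below 𝒜 p q ∧ Below 𝒜 q p) with hcls
  have mem_cls : ∀ p, p ∈ cls ↔ (Below 𝒜 p q ∧ Below 𝒜 q p) := by
    intro p
    simp [hcls]
  have hE : ∀ r p : Q, ∃ e : Ctx rank, Below 𝒜 r p → 0 < cmat 𝒜 e r p := by
    intro r p
    by_cases h : Below 𝒜 r p
    · obtain ⟨e, he⟩ := h
      exact ⟨e, fun _ => he⟩
    · exact ⟨[], fun h' => absurd h' h⟩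
  choose E hE using hE
  set d : ℕ := 1 + ∑ r, ∑ p, csize (E r p) with hd
  have hEd : ∀ r p, csize (E r p) ≤ d := by
    intro r p
    have h1 : csize (E r p) ≤ ∑ p, csize (E r p) :=
      Finset.single_le_sum (f := fun p => csize (E r p)) (fun _ _ => Nat.zero_le _)
        (Finset.mem_univ p)
    have h2 : ∑ p, csize (E r p) ≤ ∑ r, ∑ p, csize (E r p) :=
      Finset.single_le_sum (f := fun r => ∑ p, csize (E r p)) (fun _ _ => Nat.zero_le _)
        (Finset.mem_univ r)
    omega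
  have hd1 : 1 ≤ d := by omega
  clear_value d
  have hF : ∀ (c : Ctx rank) (p r : Q), p ∈ cls → r ∈ cls →
      (cmat 𝒜 c p r : ℝ) ≤ l ^ (csize c + d) := by
    intro c p r hp hr
    by_contra hcon
    push Not at hcon
    have hrp : Below 𝒜 r p := ((mem_cls r).1 hr).1.trans ((mem_cls p).1 hp).2
    have hloop : cmat 𝒜 c p r ≤ cmat 𝒜 (c ++ E r p) p p :=
      le_trans (Nat.le_mul_of_pos_right _ (hE r p hrp)) (le_cmat_append 𝒜 c (E r p) p r p)
    obtain ⟨e', he'⟩ := ((mem_cls p).1 hp).2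
    have hbp : Big 𝒜 l p := by
      refine big_of_loop (c := c ++ E r p) (s := csize c + d) hl (by omega) ?_ ?_
        (t₀ := cplug e' t₀) ?_
      · rw [csize_append]
        have := hEd r p
        omega
      · exact le_trans hcon.le (by exact_mod_cast hloop)
      · exact lt_of_lt_of_le (Nat.mul_pos ht₀ he') (le_val_cplug 𝒜 e' t₀ q p)
    exact hbig (Big.mono hl ((mem_cls p).1 hp).1 hbp)
  have hlow : ∀ p, Below 𝒜 p q → p ∉ cls → Small 𝒜 l p := by
    intro p hp hpc
    have hnq : ¬ Below 𝒜 q p := fun h => hpc ((mem_cls p).2 ⟨hp, h⟩)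
    rcases ih p ⟨hp, hnq⟩ with h | h
    · exact absurd (Big.mono hl hp h) hbig
    · exact h
  intro l' hl'
  obtain ⟨m, hm1, hm2⟩ := exists_between hl'
  have hm0 : (0 : ℝ) < m := by linarith
  have hm1' : (1 : ℝ) ≤ m := by linarith
  have hKf : ∀ p, ∃ K : ℝ, Below 𝒜 p q → p ∉ cls → ∀ t, (val 𝒜 t p : ℝ) ≤ K * m ^ t.size := by
    intro p
    by_cases h : Below 𝒜 p q ∧ p ∉ cls
    · obtain ⟨K, hK⟩ := hlow p h.1 h.2 m hm1
      exact ⟨K, fun _ _ => hK⟩
    · exact ⟨0, fun h1 h2 => absurd ⟨h1, h2⟩ h⟩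
  choose Kf hKf using hKf
  set K : ℝ := 1 + ∑ p, |Kf p| with hKdef
  have hK1 : 1 ≤ K := by
    have : 0 ≤ ∑ p, |Kf p| := Finset.sum_nonneg (fun _ _ => abs_nonneg _)
    linarith
  have hK : ∀ p, Below 𝒜 p q → p ∉ cls → ∀ t, (val 𝒜 t p : ℝ) ≤ K * m ^ t.size := by
    intro p h1 h2 t
    refine le_trans (hKf p h1 h2 t) ?_
    refine mul_le_mul_of_nonneg_right ?_ (by positivity)
    have h3 : |Kf p| ≤ ∑ p, |Kf p| :=
      Finset.single_le_sum (f := fun p => |Kf p|) (fun _ _ => abs_nonneg _) (Finset.mem_univ p)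
    have h4 := le_abs_self (Kf p)
    linarith
  set M : ℝ := ∑ a, ∑ ps : Fin (rank a) → Q, ∑ q', (𝒜.μ a ps q' : ℝ) * K ^ rank a with hM
  have hM0 : 0 ≤ M := by
    refine Finset.sum_nonneg (fun _ _ => Finset.sum_nonneg (fun _ _ =>
      Finset.sum_nonneg (fun _ _ => by positivity)))
  have hMle : ∀ a q', ∑ ps : Fin (rank a) → Q, (𝒜.μ a ps q' : ℝ) * K ^ rank a ≤ M := by
    intro a q'
    have h1 : ∑ ps : Fin (rank a) → Q, (𝒜.μ a ps q' : ℝ) * K ^ rank a
        ≤ ∑ ps : Fin (rank a) → Q, ∑ q', (𝒜.μ a ps q' : ℝ) * K ^ rank a := by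
      refine Finset.sum_le_sum (fun ps _ => ?_)
      exact Finset.single_le_sum (f := fun q' => (𝒜.μ a ps q' : ℝ) * K ^ rank a)
        (fun _ _ => by positivity) (Finset.mem_univ q')
    refine le_trans h1 ?_
    exact Finset.single_le_sum
      (f := fun a => ∑ ps : Fin (rank a) → Q, ∑ q', (𝒜.μ a ps q' : ℝ) * K ^ rank a)
      (fun _ _ => Finset.sum_nonneg (fun _ _ => Finset.sum_nonneg (fun _ _ => by positivity)))
      (Finset.mem_univ a)
  set K3 : ℝ := (Fintype.card Q : ℝ) * M * l ^ d with hK3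
  have hK30 : 0 ≤ K3 := by positivity
  clear_value K3 M K
  have claim : ∀ t : RTree rank, ∀ c : Ctx rank, ∀ q0 ∈ cls,
      ∑ q' ∈ cls, (val 𝒜 t q' : ℝ) * cmat 𝒜 c q' q0 ≤ K3 * t.size * m ^ (t.size + csize c) := by
    intro t
    induction t with
    | node a ch ihT =>
      intro c q0 hq0
      set sz : ℕ := (RTree.node a ch).size with hsz
      have hszeq : sz = 1 + ∑ i, (ch i).size := rfl
      -- the low part
      have hlowpart : ∀ q' ∈ cls,
          ((∑ ps ∈ univ.filter (fun ps : Fin (rank a) → Q => ∀ i, ps i ∉ cls),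
            𝒜.μ a ps q' * ∏ j, val 𝒜 (ch j) (ps j) : ℕ) : ℝ) ≤ M * m ^ sz := by
        intro q' hq'
        push_cast
        have h1 : ∀ ps ∈ univ.filter (fun ps : Fin (rank a) → Q => ∀ i, ps i ∉ cls),
            (𝒜.μ a ps q' : ℝ) * ∏ j, (val 𝒜 (ch j) (ps j) : ℝ)
            ≤ (𝒜.μ a ps q' : ℝ) * K ^ rank a * m ^ (∑ i, (ch i).size) := by
          intro ps hps
          have hps' : ∀ i, ps i ∉ cls := by simpa using hps
          by_cases h0 : 𝒜.μ a ps q' * ∏ j, val 𝒜 (ch j) (ps j) = 0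
          · have h0' : (𝒜.μ a ps q' : ℝ) * ∏ j, (val 𝒜 (ch j) (ps j) : ℝ) = 0 := by
              exact_mod_cast h0
            rw [h0']
            positivity
          · have hb : ∀ j, Below 𝒜 (ps j) q := fun j =>
              (below_of_term 𝒜 a ch q' ps h0 j).trans ((mem_cls q').1 hq').1
            have h2 : ∏ j, (val 𝒜 (ch j) (ps j) : ℝ) ≤ ∏ j, (K * m ^ (ch j).size) :=
              Finset.prod_le_prod (fun _ _ => by positivity)
                (fun j _ => hK (ps j) (hb j) (hps' j) (ch j))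
            rw [Finset.prod_mul_distrib, Finset.prod_pow_eq_pow_sum, Finset.prod_const,
              Finset.card_univ, Fintype.card_fin] at h2
            rw [mul_assoc]
            exact mul_le_mul_of_nonneg_left h2 (by positivity)
        refine le_trans (Finset.sum_le_sum h1) ?_
        refine le_trans (Finset.sum_le_univ_sum_of_nonneg (fun ps => by positivity)) ?_
        rw [← Finset.sum_mul]
        refine mul_le_mul (hMle a q') ?_ (by positivity) hM0
        exact pow_le_pow_right₀ hm1' (by omega)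
      have hstep : ∀ q' ∈ cls, (val 𝒜 (RTree.node a ch) q' : ℝ) * cmat 𝒜 c q' q0
          ≤ M * m ^ sz * (l ^ d * m ^ csize c)
            + ∑ i, ∑ p ∈ cls, (val 𝒜 (ch i) p : ℝ) *
              ((Frame.mk a i ch).mat 𝒜 p q' * cmat 𝒜 c q' q0) := by
        intro q' hq'
        have h1 : (val 𝒜 (RTree.node a ch) q' : ℝ) ≤ M * m ^ sz
            + ∑ i, ∑ p ∈ cls, (val 𝒜 (ch i) p : ℝ) * (Frame.mk a i ch).mat 𝒜 p q' := by
          have h2 := val_split 𝒜 a ch q' cls
          have h3 : (val 𝒜 (RTree.node a ch) q' : ℝ) ≤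
              ((∑ ps ∈ univ.filter (fun ps : Fin (rank a) → Q => ∀ i, ps i ∉ cls),
                𝒜.μ a ps q' * ∏ j, val 𝒜 (ch j) (ps j) : ℕ) : ℝ)
              + ((∑ i, ∑ p ∈ cls, val 𝒜 (ch i) p * (Frame.mk a i ch).mat 𝒜 p q' : ℕ) : ℝ) := by
            exact_mod_cast h2
          refine le_trans h3 (add_le_add (hlowpart q' hq') (le_of_eq ?_))
          push_cast
          rfl
        have h4 : (cmat 𝒜 c q' q0 : ℝ) ≤ l ^ d * m ^ csize c := by
          refine le_trans (hF c q' q0 hq' hq0) ?_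
          rw [pow_add, mul_comm]
          exact mul_le_mul_of_nonneg_left (pow_le_pow_left₀ hl0.le hm1.le _) (by positivity)
        refine le_trans (mul_le_mul_of_nonneg_right h1 (by positivity)) ?_
        rw [add_mul]
        refine add_le_add (mul_le_mul_of_nonneg_left h4 (by positivity)) (le_of_eq ?_)
        rw [Finset.sum_mul]
        refine Finset.sum_congr rfl (fun i _ => ?_)
        rw [Finset.sum_mul]
        refine Finset.sum_congr rfl (fun p _ => ?_)
        ring
      refine le_trans (Finset.sum_le_sum hstep) ?_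
      rw [Finset.sum_add_distrib, Finset.sum_const, nsmul_eq_mul]
      have hfirst : (cls.card : ℝ) * (M * m ^ sz * (l ^ d * m ^ csize c))
          ≤ K3 * m ^ (sz + csize c) := by
        have h1 : (cls.card : ℝ) ≤ Fintype.card Q := by
          exact_mod_cast Finset.card_le_univ cls
        rw [hK3, pow_add m sz (csize c)]
        calc (cls.card : ℝ) * (M * m ^ sz * (l ^ d * m ^ csize c))
            ≤ (Fintype.card Q : ℝ) * (M * m ^ sz * (l ^ d * m ^ csize c)) :=
              mul_le_mul_of_nonneg_right h1 (by positivity)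
          _ = _ := by ring
      have hsecond : ∑ q' ∈ cls, ∑ i, ∑ p ∈ cls, (val 𝒜 (ch i) p : ℝ) *
              ((Frame.mk a i ch).mat 𝒜 p q' * cmat 𝒜 c q' q0)
          ≤ ∑ i, K3 * (ch i).size * m ^ (sz + csize c) := by
        rw [Finset.sum_comm]
        refine Finset.sum_le_sum (fun i _ => ?_)
        rw [Finset.sum_comm]
        have h1 := ihT i (Frame.mk a i ch :: c) q0 hq0
        have h2 : (ch i).size + csize (Frame.mk a i ch :: c) = sz + csize c := by
          rw [csize_cons, hsz, size_node_frame a ch i]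
          ring
        rw [h2] at h1
        refine le_trans (Finset.sum_le_sum (fun p _ => ?_)) h1
        rw [← Finset.mul_sum]
        refine mul_le_mul_of_nonneg_left ?_ (by positivity)
        show _ ≤ ((∑ r, (Frame.mk a i ch).mat 𝒜 p r * cmat 𝒜 c r q0 : ℕ) : ℝ)
        push_cast
        exact Finset.sum_le_univ_sum_of_nonneg (fun r => by positivity)
      refine le_trans (add_le_add hfirst hsecond) (le_of_eq ?_)
      rw [← Finset.sum_mul, ← Finset.mul_sum, hszeq]
      push_cast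
      ring
  have hbound : ∀ t : RTree rank, (val 𝒜 t q : ℝ) ≤ K3 * (t.size * m ^ t.size) := by
    intro t
    have hqc : q ∈ cls := (mem_cls q).2 ⟨Below.refl 𝒜 q, Below.refl 𝒜 q⟩
    have h1 := claim t [] q hqc
    have h2 : (val 𝒜 t q : ℝ) ≤ ∑ q' ∈ cls, (val 𝒜 t q' : ℝ) * cmat 𝒜 [] q' q := by
      refine le_trans (le_of_eq ?_) (Finset.single_le_sum
        (f := fun q' => (val 𝒜 t q' : ℝ) * cmat 𝒜 [] q' q) (fun _ _ => by positivity) hqc)
      simp [cmat]
    refine le_trans h2 (le_trans h1 (le_of_eq ?_))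
    simp [csize]
    ring
  -- absorb the linear factor
  have hl'0 : (0 : ℝ) < l' := by linarith
  have hr : Tendsto (fun n : ℕ => (n : ℝ) * (m / l') ^ n) atTop (𝓝 0) :=
    tendsto_self_mul_const_pow_of_lt_one (by positivity) ((div_lt_one (by linarith)).2 hm2)
  obtain ⟨B, hB⟩ := hr.bddAbove_range
  refine ⟨K3 * B, fun t => le_trans (hbound t) ?_⟩
  rw [mul_assoc]
  refine mul_le_mul_of_nonneg_left ?_ hK30
  have h1 : (t.size : ℝ) * (m / l') ^ t.size ≤ B := hB ⟨t.size, rfl⟩
  rw [div_pow] at h1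
  have h2 : (t.size : ℝ) * m ^ t.size = (t.size : ℝ) * (m ^ t.size / l' ^ t.size) * l' ^ t.size := by
    field_simp
  rw [h2]
  exact mul_le_mul_of_nonneg_right h1 (by positivity)


omit [DecidableEq Q] in
/-- a crude exponential upper bound -/
theorem val_le_pow [Fintype A] (𝒜 : WTA rank Q) :
    ∃ B : ℕ, 1 ≤ B ∧ ∀ (t : RTree rank) (q : Q), val 𝒜 t q ≤ B ^ t.size := by
  refine ⟨1 + ∑ a, ∑ ps : Fin (rank a) → Q, ∑ q, 𝒜.μ a ps q, by omega, ?_⟩
  set B : ℕ := 1 + ∑ a, ∑ ps : Fin (rank a) → Q, ∑ q, 𝒜.μ a ps q with hB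
  have hle : ∀ a q, ∑ ps : Fin (rank a) → Q, 𝒜.μ a ps q ≤ B := by
    intro a q
    have h1 : ∑ ps : Fin (rank a) → Q, 𝒜.μ a ps q
        ≤ ∑ ps : Fin (rank a) → Q, ∑ q, 𝒜.μ a ps q :=
      Finset.sum_le_sum (fun ps _ => Finset.single_le_sum (f := fun q => 𝒜.μ a ps q)
        (fun _ _ => Nat.zero_le _) (Finset.mem_univ q))
    have h2 : ∑ ps : Fin (rank a) → Q, ∑ q, 𝒜.μ a ps q
        ≤ ∑ a, ∑ ps : Fin (rank a) → Q, ∑ q, 𝒜.μ a ps q :=
      Finset.single_le_sum (f := fun a => ∑ ps : Fin (rank a) → Q, ∑ q, 𝒜.μ a ps q)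
        (fun _ _ => Nat.zero_le _) (Finset.mem_univ a)
    omega
  clear_value B
  intro t
  induction t with
  | node a ch ih =>
    intro q
    show ∑ ps : Fin (rank a) → Q, 𝒜.μ a ps q * ∏ i, val 𝒜 (ch i) (ps i)
      ≤ B ^ (1 + ∑ i, (ch i).size)
    have h1 : ∀ ps : Fin (rank a) → Q, 𝒜.μ a ps q * ∏ i, val 𝒜 (ch i) (ps i)
        ≤ 𝒜.μ a ps q * B ^ (∑ i, (ch i).size) := by
      intro ps
      refine Nat.mul_le_mul_left _ ?_
      rw [← Finset.prod_pow_eq_pow_sum]
      exact Finset.prod_le_prod' (fun i _ => ih i (ps i))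
    refine le_trans (Finset.sum_le_sum (fun ps _ => h1 ps)) ?_
    rw [← Finset.sum_mul, pow_add, pow_one]
    exact Nat.mul_le_mul_right _ (hle a q)

omit [DecidableEq Q] in
theorem value_le_pow [Fintype A] (𝒜 : WTA rank Q) :
    ∃ B F : ℕ, 1 ≤ B ∧ ∀ t : RTree rank, 𝒜.value t ≤ F * B ^ t.size := by
  obtain ⟨B, hB, h⟩ := val_le_pow 𝒜
  refine ⟨B, ∑ q, 𝒜.final q, hB, fun t => ?_⟩
  rw [value_eq, Finset.sum_mul]
  refine Finset.sum_le_sum (fun q _ => ?_)
  rw [mul_comm]
  exact Nat.mul_le_mul_left _ (h t q)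

omit [DecidableEq Q] in
theorem growth_bdd [Fintype A] (𝒜 : WTA rank Q) (n : ℕ) :
    BddAbove {v : ℕ | ∃ t : RTree rank, t.size ≤ n ∧ v = 𝒜.value t} := by
  obtain ⟨B, F, hB, h⟩ := value_le_pow 𝒜
  refine ⟨F * B ^ n, ?_⟩
  rintro v ⟨t, ht, rfl⟩
  exact le_trans (h t) (Nat.mul_le_mul_left _ (Nat.pow_le_pow_right hB ht))

omit [DecidableEq Q] in
theorem le_growth [Fintype A] (𝒜 : WTA rank Q) (n : ℕ) (t : RTree rank) (ht : t.size ≤ n) :
    𝒜.value t ≤ growth 𝒜.value n :=
  le_csSup (growth_bdd 𝒜 n) ⟨t, ht, rfl⟩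

omit [DecidableEq Q] in
theorem growth_le (𝒜 : WTA rank Q) (n : ℕ) (X : ℕ)
    (h : ∀ t : RTree rank, t.size ≤ n → 𝒜.value t ≤ X) : growth 𝒜.value n ≤ X := by
  refine csSup_le' ?_
  rintro v ⟨t, ht, rfl⟩
  exact h t ht

omit [DecidableEq Q] in
theorem growth_le_real (𝒜 : WTA rank Q) (n : ℕ) (X : ℝ) (hX : 0 ≤ X)
    (h : ∀ t : RTree rank, t.size ≤ n → (𝒜.value t : ℝ) ≤ X) :
    (growth 𝒜.value n : ℝ) ≤ X := by
  have h1 : growth 𝒜.value n ≤ ⌊X⌋₊ :=
    growth_le 𝒜 n _ (fun t ht => Nat.le_floor (h t ht))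
  exact le_trans (by exact_mod_cast h1) (Nat.floor_le hX)

omit [DecidableEq Q] in
theorem growth_dichotomy [Fintype A] (𝒜 : WTA rank Q) {l : ℝ} (hl : 1 < l) :
    (∃ c : ℝ, 0 < c ∧ ∀ᶠ n : ℕ in atTop, c * l ^ n ≤ growth 𝒜.value n) ∨
    (∀ l' > l, ∃ K : ℝ, ∀ n : ℕ, (growth 𝒜.value n : ℝ) ≤ K * l' ^ n) := by
  classical
  have hl0 : (0 : ℝ) < l := by linarith
  by_cases h : ∃ q, 0 < 𝒜.final q ∧ Big 𝒜 l q
  · left
    obtain ⟨q, hq, c, hc, N, hN⟩ := h
    refine ⟨c, hc, ?_⟩
    filter_upwards [eventually_ge_atTop N] with n hn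
    obtain ⟨t, ht1, ht2⟩ := hN n hn
    refine le_trans ht2 ?_
    have h1 : val 𝒜 t q ≤ growth 𝒜.value n := by
      refine le_trans ?_ (le_growth 𝒜 n t ht1)
      rw [value_eq]
      refine le_trans (Nat.le_mul_of_pos_right _ hq) ?_
      exact Finset.single_le_sum (f := fun q => val 𝒜 t q * 𝒜.final q)
        (fun _ _ => Nat.zero_le _) (Finset.mem_univ q)
    exact_mod_cast h1
  · right
    intro l' hl'
    have hl'1 : (1 : ℝ) ≤ l' := by linarith
    push Not at h
    have hK : ∀ q, ∃ K : ℝ, ∀ t : RTree rank,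
        (val 𝒜 t q : ℝ) * 𝒜.final q ≤ K * l' ^ t.size := by
      intro q
      by_cases h0 : 0 < 𝒜.final q
      · rcases dichotomy 𝒜 hl q with hb | hs
        · exact absurd hb (h q h0)
        · obtain ⟨K, hK⟩ := hs l' hl'
          refine ⟨K * 𝒜.final q, fun t => ?_⟩
          have := mul_le_mul_of_nonneg_right (hK t) (Nat.cast_nonneg (α := ℝ) (𝒜.final q))
          linarith
      · have h1 : 𝒜.final q = 0 := by omega
        exact ⟨0, fun t => by simp [h1]⟩
    choose K hK using hK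
    refine ⟨∑ q, |K q|, fun n => growth_le_real 𝒜 n _ (by positivity) (fun t ht => ?_)⟩
    rw [value_eq]
    push_cast
    rw [Finset.sum_mul]
    refine Finset.sum_le_sum (fun q _ => ?_)
    refine le_trans (hK q t) ?_
    calc K q * l' ^ t.size ≤ |K q| * l' ^ t.size :=
          mul_le_mul_of_nonneg_right (le_abs_self _) (by positivity)
      _ ≤ |K q| * l' ^ n :=
          mul_le_mul_of_nonneg_left (pow_le_pow_right₀ hl'1 ht) (abs_nonneg _)

/-- From the dichotomy at every rate to the existence of the limit. -/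
theorem limit_of_dichotomy {G : ℕ → ℕ}
    (hG : ∀ l : ℝ, 1 < l → (∃ c : ℝ, 0 < c ∧ ∀ᶠ n : ℕ in atTop, c * l ^ n ≤ G n) ∨
      (∀ l' > l, ∃ K : ℝ, ∀ n : ℕ, (G n : ℝ) ≤ K * l' ^ n))
    (hub : ∃ B F : ℝ, 1 ≤ B ∧ ∀ n : ℕ, (G n : ℝ) ≤ F * B ^ n)
    (hpos : ∀ᶠ n : ℕ in atTop, 1 ≤ G n) :
    ∃ ρ : ℝ, 1 ≤ ρ ∧ Tendsto (fun n : ℕ => (G n : ℝ) ^ (1 / (n : ℝ))) atTop (𝓝 ρ) := by
  obtain ⟨B, F, hB1, hBF⟩ := hub
  set S : Set ℝ := {l : ℝ | l = 1 ∨ (1 < l ∧ ∃ c : ℝ, 0 < c ∧ ∀ᶠ n : ℕ in atTop, c * l ^ n ≤ G n)}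
    with hS
  have h1S : (1 : ℝ) ∈ S := Or.inl rfl
  -- `c ^ (1 / n) → 1`
  have hroot : ∀ c : ℝ, 0 < c → Tendsto (fun n : ℕ => c ^ (1 / (n : ℝ))) atTop (𝓝 1) := by
    intro c hc
    have h1 : Tendsto (fun n : ℕ => (1 : ℝ) / (n : ℝ)) atTop (𝓝 0) :=
      tendsto_one_div_atTop_nhds_zero_nat
    have h2 : Tendsto (fun x : ℝ => c ^ x) (𝓝 0) (𝓝 (c ^ (0 : ℝ))) :=
      (Real.continuousAt_const_rpow hc.ne').tendsto
    rw [Real.rpow_zero] at h2
    exact h2.comp h1
  have hlow : ∀ l c : ℝ, 1 < l → 0 < c → (∀ᶠ n : ℕ in atTop, c * l ^ n ≤ G n) →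
      ∀ a < l, ∀ᶠ n : ℕ in atTop, a < (G n : ℝ) ^ (1 / (n : ℝ)) := by
    intro l c hl hc h a ha
    have h1 : Tendsto (fun n : ℕ => c ^ (1 / (n : ℝ)) * l) atTop (𝓝 (1 * l)) :=
      (hroot c hc).mul_const l
    rw [one_mul] at h1
    filter_upwards [h, h1.eventually (lt_mem_nhds ha), eventually_gt_atTop 0] with n hn1 hn2 hn3
    refine lt_of_lt_of_le hn2 ?_
    have h2 : (c * l ^ n) ^ (1 / (n : ℝ)) ≤ (G n : ℝ) ^ (1 / (n : ℝ)) :=
      Real.rpow_le_rpow (by positivity) hn1 (by positivity)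
    refine le_trans (le_of_eq ?_) h2
    rw [Real.mul_rpow hc.le (by positivity)]
    congr 1
    rw [one_div, Real.pow_rpow_inv_natCast (by linarith) (by omega)]
  have hup : ∀ l K : ℝ, 1 < l → (∀ n : ℕ, (G n : ℝ) ≤ K * l ^ n) →
      ∀ b > l, ∀ᶠ n : ℕ in atTop, (G n : ℝ) ^ (1 / (n : ℝ)) < b := by
    intro l K hl h b hb
    have h1 : Tendsto (fun n : ℕ => (|K| + 1) ^ (1 / (n : ℝ)) * l) atTop (𝓝 (1 * l)) :=
      (hroot (|K| + 1) (by positivity)).mul_const l
    rw [one_mul] at h1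
    filter_upwards [h1.eventually (gt_mem_nhds hb), eventually_gt_atTop 0] with n hn2 hn3
    refine lt_of_le_of_lt ?_ hn2
    have h2 : (G n : ℝ) ≤ (|K| + 1) * l ^ n := by
      refine le_trans (h n) (mul_le_mul_of_nonneg_right ?_ (by positivity))
      have := le_abs_self K
      linarith
    have h3 : (G n : ℝ) ^ (1 / (n : ℝ)) ≤ ((|K| + 1) * l ^ n) ^ (1 / (n : ℝ)) :=
      Real.rpow_le_rpow (by positivity) h2 (by positivity)
    refine le_trans h3 (le_of_eq ?_)
    rw [Real.mul_rpow (by positivity) (by positivity)]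
    congr 1
    rw [one_div, Real.pow_rpow_inv_natCast (by linarith) (by omega)]
  have hbdd : BddAbove S := by
    refine ⟨B + 1, ?_⟩
    rintro l (rfl | ⟨hl1, c, hc, h⟩)
    · linarith
    · by_contra hcon
      push Not at hcon
      have hBl : (B + 1 : ℝ) < l := hcon
      have h1 := hlow l c hl1 hc h (B + 1) hBl
      have h2 := hup (B + 1 / 2) F (by linarith) (fun n => by
        refine le_trans (hBF n) ?_
        have hF : 0 ≤ F := by
          have := hBF 0
          simp at this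
          exact le_trans (Nat.cast_nonneg _) this
        exact mul_le_mul_of_nonneg_left (pow_le_pow_left₀ (by linarith) (by linarith) n) hF)
        (B + 1) (by linarith)
      obtain ⟨n, hn1, hn2⟩ := (h1.and h2).exists
      linarith
  refine ⟨sSup S, le_csSup hbdd h1S, ?_⟩
  have hρ1 : 1 ≤ sSup S := le_csSup hbdd h1S
  rw [tendsto_order]
  constructor
  · intro a ha
    obtain ⟨l, hlS, hal⟩ := exists_lt_of_lt_csSup ⟨1, h1S⟩ ha
    rcases hlS with rfl | ⟨hl1, c, hc, h⟩
    · filter_upwards [hpos] with n hn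
      refine lt_of_lt_of_le hal ?_
      exact Real.one_le_rpow (by exact_mod_cast hn) (by positivity)
    · exact hlow l c hl1 hc h a hal
  · intro b hb
    obtain ⟨l, hl1, hl2⟩ := exists_between hb
    obtain ⟨l', hl'1, hl'2⟩ := exists_between hl2
    have hlgt : 1 < l := lt_of_le_of_lt hρ1 hl1
    have hlS : l ∉ S := fun h => absurd (le_csSup hbdd h) (not_le.2 hl1)
    rcases hG l hlgt with ⟨c, hc, h⟩ | h
    · exact absurd (Or.inr ⟨hlgt, c, hc, h⟩) hlS
    · obtain ⟨K, hK⟩ := h l' hl'1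
      exact hup l' K (by linarith) hK b hl'2

omit [DecidableEq Q] in
theorem growth_mono [Fintype A] (𝒜 : WTA rank Q) : Monotone (growth 𝒜.value) :=
  fun _ m hnm => growth_le 𝒜 _ _ (fun t ht => le_growth 𝒜 m t (le_trans ht hnm))

end Proof

theorem growth_isGreatest {A : Type u} [Fintype A] {rank : A → ℕ} {Q : Type v} [Fintype Q]
    (𝒜 : WTA rank Q) (n : ℕ) (h : ∃ t : RTree rank, t.size ≤ n) :
    IsGreatest {v : ℕ | ∃ t : RTree rank, t.size ≤ n ∧ v = 𝒜.value t} (growth 𝒜.value n) := by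
  obtain ⟨t, ht⟩ := h
  exact ⟨Nat.sSup_mem ⟨_, t, ht, rfl⟩ (growth_bdd 𝒜 n), fun v hv => le_csSup (growth_bdd 𝒜 n) hv⟩

/-- **Q1, affirmative answer.**  For every finite ranked alphabet `(A, rank)` and every
`ℕ`-weighted tree automaton `𝒜` over it, `growth[𝒜](n) ^ (1 / n)` converges to a real `ρ`; `𝒜` has
exponential growth if and only if `ρ > 1`, and then
`(1 / n) * log growth[𝒜](n)` tends to `log ρ`, that is `growth[𝒜](n) = ρ ^ (n + o(n))`. -/
theorem result {A : Type u} [Finite A] (rank : A → ℕ) {Q : Type v} [Fintype Q]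
    (𝒜 : WTA rank Q) :
    ∃ ρ : ℝ,
      Tendsto (fun n : ℕ => (growth 𝒜.value n : ℝ) ^ (1 / (n : ℝ))) atTop (𝓝 ρ) ∧
      (ExpGrowth (growth 𝒜.value) ↔ 1 < ρ) ∧
      (1 < ρ → Tendsto (fun n : ℕ => (1 / (n : ℝ)) * Real.log (growth 𝒜.value n)) atTop
        (𝓝 (Real.log ρ))) := by
  have : Fintype A := Fintype.ofFinite A
  obtain ⟨B, F, hB, hBF⟩ := value_le_pow 𝒜
  have hub : ∀ n : ℕ, (growth 𝒜.value n : ℝ) ≤ F * (B : ℝ) ^ n := by
    intro n
    have : growth 𝒜.value n ≤ F * B ^ n :=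
      growth_le 𝒜 n _ (fun t ht => le_trans (hBF t)
        (Nat.mul_le_mul_left _ (Nat.pow_le_pow_right hB ht)))
    exact_mod_cast this
  by_cases hpos : ∃ n, 1 ≤ growth 𝒜.value n
  · obtain ⟨n₀, hn₀⟩ := hpos
    have hev : ∀ᶠ n : ℕ in atTop, 1 ≤ growth 𝒜.value n := by
      filter_upwards [eventually_ge_atTop n₀] with n hn
      exact le_trans hn₀ (growth_mono 𝒜 hn)
    obtain ⟨ρ, hρ1, hρ⟩ := limit_of_dichotomy (G := growth 𝒜.value)
      (fun l hl => growth_dichotomy 𝒜 hl)
      ⟨B, F, by exact_mod_cast hB, hub⟩ hev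
    refine ⟨ρ, hρ, ⟨?_, ?_⟩, ?_⟩
    · rintro ⟨c₁, c₂, hc₁, hc₂, h⟩
      have h2 : (2 : ℝ) ^ c₁ ≤ ρ := by
        refine ge_of_tendsto hρ ?_
        filter_upwards [h, eventually_gt_atTop 0] with n hn hn0
        have h3 : ((2 : ℝ) ^ (c₁ * n)) ^ (1 / (n : ℝ)) ≤ (growth 𝒜.value n : ℝ) ^ (1 / (n : ℝ)) :=
          Real.rpow_le_rpow (by positivity) hn.1 (by positivity)
        refine le_trans (le_of_eq ?_) h3
        rw [← Real.rpow_mul (by norm_num)]
        congr 1
        have : (n : ℝ) ≠ 0 := by positivity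
        field_simp
      have h3 : (1 : ℝ) < 2 ^ c₁ := Real.one_lt_rpow (by norm_num) hc₁
      linarith
    · intro hρgt
      obtain ⟨l, hl1, hl2⟩ := exists_between hρgt
      have hl0 : (0 : ℝ) < l := by linarith
      have hX : (1 : ℝ) < ((F : ℝ) + 1) * (B + 1) := by
        have h1 : (1 : ℝ) ≤ B := by exact_mod_cast hB
        have h2 : (0 : ℝ) ≤ F := Nat.cast_nonneg F
        nlinarith
      refine ⟨Real.logb 2 l, Real.logb 2 (((F : ℝ) + 1) * (B + 1)),
        Real.logb_pos (by norm_num) hl1, Real.logb_pos (by norm_num) hX, ?_⟩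
      filter_upwards [hρ.eventually (lt_mem_nhds hl2), eventually_gt_atTop 0] with n hn hn0
      constructor
      · rw [Real.rpow_mul (by norm_num), Real.rpow_logb (by norm_num) (by norm_num) hl0,
          Real.rpow_natCast]
        have h1 : l ^ n ≤ ((growth 𝒜.value n : ℝ) ^ (1 / (n : ℝ))) ^ n :=
          pow_le_pow_left₀ hl0.le hn.le n
        refine le_trans h1 (le_of_eq ?_)
        rw [one_div, Real.rpow_inv_natCast_pow (Nat.cast_nonneg _) (by omega)]
      · rw [Real.rpow_mul (by norm_num), Real.rpow_logb (by norm_num) (by norm_num)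
          (by positivity), Real.rpow_natCast, mul_pow]
        refine le_trans (hub n) ?_
        refine mul_le_mul ?_ ?_ (by positivity) (by positivity)
        · have h1 : ((F : ℝ) + 1) ^ 1 ≤ ((F : ℝ) + 1) ^ n :=
            pow_le_pow_right₀ (by linarith [Nat.cast_nonneg (α := ℝ) F]) hn0
          rw [pow_one] at h1
          linarith
        · exact pow_le_pow_left₀ (by positivity) (by linarith) n
    · intro _
      have h1 : Tendsto (fun n : ℕ => Real.log ((growth 𝒜.value n : ℝ) ^ (1 / (n : ℝ)))) atTop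
          (𝓝 (Real.log ρ)) := (Real.continuousAt_log (by linarith)).tendsto.comp hρ
      refine h1.congr' ?_
      filter_upwards [hev] with n hn
      rw [Real.log_rpow (by exact_mod_cast hn)]
  · push Not at hpos
    have hzero : ∀ n, growth 𝒜.value n = 0 := fun n => by
      have := hpos n
      omega
    refine ⟨0, ?_, ⟨?_, ?_⟩, ?_⟩
    · refine tendsto_const_nhds.congr' ?_
      filter_upwards [eventually_gt_atTop 0] with n hn
      rw [hzero n, Nat.cast_zero, Real.zero_rpow]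
      positivity
    · rintro ⟨c₁, c₂, hc₁, hc₂, h⟩
      obtain ⟨n, hn⟩ := h.exists
      have h1 := hn.1
      rw [hzero n, Nat.cast_zero] at h1
      have h2 : (0 : ℝ) < 2 ^ (c₁ * n) := by positivity
      linarith
    · intro h
      linarith
    · intro h
      linarith

end Pool.Agent.Results.MP_7772c6_lc.ExactRate
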